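import Pool.Agent.H664.FH.Stm

set_option autoImplicit false

namespace Pool.Agent.H539.FH

open Finset

/-- `ℤ`-independence implies `ℚ`-independence -/
theorem qi_rat {n : ℕ} {α : Fin n → ℝ} (h : ∀ m : Fin n → ℤ, ∑ l, (m l : ℝ) * α l = 0 → m = 0)
    (q : Fin n → ℚ) (hq : ∑ l, (q l : ℝ) * α l = 0) : q = 0 := by
  obtain ⟨b, hb⟩ := IsLocalization.exist_integer_multiples_of_finite (nonZeroDivisors ℤ) q
  choose m hm using hb
  have hb0 : ((b : ℤ) : ℚ) ≠ 0 := by
    exact_mod_cast nonZeroDivisors.coe_ne_zero b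
  have hm' : ∀ l, (m l : ℚ) = (b : ℤ) * q l := by
    intro l
    have := hm l
    rw [Algebra.smul_def] at this
    simpa using this
  have h1 : ∑ l, (m l : ℝ) * α l = 0 := by
    have : ∀ l, (m l : ℝ) = ((b : ℤ) : ℝ) * (q l : ℝ) := by
      intro l
      have := hm' l
      exact_mod_cast this
    simp only [this, mul_assoc, ← mul_sum, hq, mul_zero]
  have h2 := h m h1
  funext l
  have h3 := hm' l
  rw [h2] at h3
  simp only [Pi.zero_apply, Int.cast_zero] at h3
  rcases mul_eq_zero.1 h3.symm with h4 | h4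
  · exact absurd h4 hb0
  · exact h4

/-- two comparable terms in a vanishing sum -/
theorem two_terms (F : Finset (ℕ × ℕ)) (hF : F.Nonempty) (B : ℝ) (hB : 1 ≤ B) (c : ℕ × ℕ → ℂ) (x y : ℂ)
    (hx : x ≠ 0) (hy : y ≠ 0) (hc : ∀ e ∈ F, B⁻¹ ≤ ‖c e‖ ∧ ‖c e‖ ≤ B)
    (hs : ∑ e ∈ F, c e * x ^ e.1 * y ^ e.2 = 0) :
    ∃ e ∈ F, ∃ e' ∈ F, e ≠ e' ∧
      |((e.1 : ℝ) - e'.1) * Real.log ‖x‖ + ((e.2 : ℝ) - e'.2) * Real.log ‖y‖| ≤
        2 * Real.log B + Real.log F.card := by
  have hB0 : 0 < B := by linarith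
  have hcne : ∀ e ∈ F, 0 < ‖c e‖ := fun e he => lt_of_lt_of_le (by positivity) (hc e he).1
  have hlogc : ∀ e ∈ F, |Real.log ‖c e‖| ≤ Real.log B := by
    intro e he
    rw [abs_le]
    constructor
    · rw [← Real.log_inv]
      exact Real.log_le_log (by positivity) (hc e he).1
    · exact Real.log_le_log (hcne e he) (hc e he).2
  set T : ℕ × ℕ → ℝ := fun e => ‖c e * x ^ e.1 * y ^ e.2‖ with hT
  have hTpos : ∀ e ∈ F, 0 < T e := by
    intro e he
    rw [hT, norm_pos_iff]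
    exact mul_ne_zero (mul_ne_zero (norm_pos_iff.1 (hcne e he)) (pow_ne_zero _ hx)) (pow_ne_zero _ hy)
  have hlogT : ∀ e ∈ F, Real.log (T e) = Real.log ‖c e‖ + e.1 * Real.log ‖x‖ + e.2 * Real.log ‖y‖ := by
    intro e he
    have h1 : ‖c e‖ ≠ 0 := (hcne e he).ne'
    have h2 : ‖x‖ ^ e.1 ≠ 0 := pow_ne_zero _ (norm_ne_zero_iff.2 hx)
    have h3 : ‖y‖ ^ e.2 ≠ 0 := pow_ne_zero _ (norm_ne_zero_iff.2 hy)
    simp only [hT, norm_mul, norm_pow]
    rw [Real.log_mul (mul_ne_zero h1 h2) h3, Real.log_mul h1 h2, Real.log_pow, Real.log_pow]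
  obtain ⟨e, he, hmax⟩ := F.exists_max_image T hF
  have hcardpos : 0 < F.card := card_pos.2 hF
  have hsum : T e ≤ ∑ e' ∈ F.erase e, T e' := by
    rw [← add_sum_erase F _ he] at hs
    have h1 : c e * x ^ e.1 * y ^ e.2 = -∑ e' ∈ F.erase e, c e' * x ^ e'.1 * y ^ e'.2 :=
      eq_neg_of_add_eq_zero_left hs
    simp only [hT]
    rw [h1, norm_neg]
    exact norm_sum_le _ _
  have hne : (F.erase e).Nonempty := by
    rw [nonempty_iff_ne_empty]
    intro h0
    rw [h0, sum_empty] at hsum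
    exact absurd hsum (not_le.2 (hTpos e he))
  obtain ⟨e', he', hmax'⟩ := (F.erase e).exists_max_image T hne
  have he'F : e' ∈ F := mem_of_mem_erase he'
  refine ⟨e, he, e', he'F, (ne_of_mem_erase he').symm, ?_⟩
  have h2 : T e ≤ F.card * T e' := by
    calc T e ≤ ∑ e' ∈ F.erase e, T e' := hsum
      _ ≤ (F.erase e).card • T e' := sum_le_card_nsmul _ _ _ hmax'
      _ = (F.erase e).card * T e' := nsmul_eq_mul _ _
      _ ≤ F.card * T e' := by
        have : ((F.erase e).card : ℝ) ≤ F.card := by exact_mod_cast card_erase_le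
        exact mul_le_mul_of_nonneg_right this (hTpos e' he'F).le
  have h3 : Real.log (T e) ≤ Real.log F.card + Real.log (T e') := by
    rw [← Real.log_mul (by positivity) (hTpos e' he'F).ne']
    exact Real.log_le_log (hTpos e he) h2
  have h4 : Real.log (T e') ≤ Real.log (T e) := Real.log_le_log (hTpos e' he'F) (hmax e' he'F)
  rw [hlogT e he, hlogT e' he'F] at h3 h4
  have h5 := abs_le.1 (hlogc e he)
  have h6 := abs_le.1 (hlogc e' he'F)
  have h7 : 0 ≤ Real.log (F.card : ℝ) := Real.log_nonneg (by exact_mod_cast hcardpos)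
  rw [abs_le]
  constructor <;> nlinarith

/-- the slope of a pair of exponents -/
def slope (s : (ℕ × ℕ) × (ℕ × ℕ)) : ℚ := -(((s.1.1 : ℚ) - s.2.1) / ((s.1.2 : ℚ) - s.2.2))

/-- the factor -/
noncomputable def kap {n : ℕ} (α : Fin n → ℝ) (i : Fin n) (σ : Fin n → (ℕ × ℕ) × (ℕ × ℕ)) : ℝ :=
  ∑ l, (((if l = i then 1 else slope (σ l)) : ℚ) : ℝ) * α l

theorem kap_ne {n : ℕ} {α : Fin n → ℝ} (h : ∀ m : Fin n → ℤ, ∑ l, (m l : ℝ) * α l = 0 → m = 0)
    (i : Fin n) (σ : Fin n → (ℕ × ℕ) × (ℕ × ℕ)) : kap α i σ ≠ 0 := by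
  intro h0
  have := congrFun (qi_rat h _ h0) i
  simp at this

theorem coer : Pool.Agent.H664.FH.S_coer := by
  intro n α F hα hF
  -- the finite set of choices
  let P : Finset (Fin n × (Fin n → (ℕ × ℕ) × (ℕ × ℕ))) :=
    univ.biUnion fun i : Fin n => (Fintype.piFinset fun l => F i l ×ˢ F i l).image fun σ => (i, σ)
  obtain ⟨κ, hκ, hκ0⟩ : ∃ κ : ℝ, (∀ x ∈ P, κ ≤ |kap α x.1 x.2|) ∧ 0 < κ := by
    have h1 : ∀ᶠ κ : ℝ in nhdsWithin 0 (Set.Ioi 0), ∀ x ∈ P, κ ≤ |kap α x.1 x.2| :=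
      (Filter.eventually_all_finset P).2 fun x _ => by
        filter_upwards [Ioo_mem_nhdsGT (abs_pos.2 (kap_ne hα x.1 x.2))] with t ht using ht.2.le
    exact (h1.and self_mem_nhdsWithin).exists
  set N : ℕ := ∑ i, ∑ l, (F i l).card with hN
  have hNle : ∀ i l, (F i l).card ≤ N := by
    intro i l
    refine le_trans ?_ (single_le_sum (f := fun i => ∑ l, (F i l).card) (fun _ _ => Nat.zero_le _) (mem_univ i))
    exact single_le_sum (f := fun l => (F i l).card) (fun _ _ => Nat.zero_le _) (mem_univ l)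
  set A : ℝ := ∑ l, |α l| with hA
  have hA0 : 0 ≤ A := sum_nonneg fun _ _ => abs_nonneg _
  have hLN : 0 ≤ Real.log N := Real.log_natCast_nonneg N
  refine ⟨(2 + Real.log N) * (1 + A / κ) + 1 / κ, by positivity, ?_⟩
  intro B c p hB hp hc hs l0
  have hLB : 0 ≤ Real.log B := Real.log_nonneg hB
  set v : Fin n → ℝ := fun l => Real.log ‖p l‖ with hv
  set M : ℝ := 2 * Real.log B + Real.log N with hM
  have hM0 : 0 ≤ M := by positivity
  obtain ⟨i, -, hi⟩ := exists_max_image (univ : Finset (Fin n)) (fun l => |v l|) ⟨l0, mem_univ _⟩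
  have hi' : ∀ l, |v l| ≤ |v i| := fun l => hi l (mem_univ l)
  -- the pairs
  have hpair : ∀ l, i ≠ l → ∃ s : (ℕ × ℕ) × (ℕ × ℕ), s.1 ∈ F i l ∧ s.2 ∈ F i l ∧ s.1 ≠ s.2 ∧
      |((s.1.1 : ℝ) - s.2.1) * v i + ((s.1.2 : ℝ) - s.2.2) * v l| ≤ M := by
    intro l hl
    obtain ⟨e, he, e', he', hne, h⟩ := two_terms (F i l) (hF i l) B hB (c i l) (p i) (p l) (hp i) (hp l)
      (hc i l) (hs i l hl)
    refine ⟨(e, e'), he, he', hne, h.trans ?_⟩
    have : Real.log ((F i l).card : ℝ) ≤ Real.log N :=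
      Real.log_le_log (by exact_mod_cast card_pos.2 (hF i l)) (by exact_mod_cast hNle i l)
    linarith
  have hgoal : |v i| ≤ M ∨ κ * |v i| ≤ |∑ l, α l * v l| + A * M := by
    by_cases hcase : ∃ l, ∃ (_ : i ≠ l) (s : (ℕ × ℕ) × (ℕ × ℕ)), s.1 ≠ s.2 ∧ s.1.2 = s.2.2 ∧
      |((s.1.1 : ℝ) - s.2.1) * v i + ((s.1.2 : ℝ) - s.2.2) * v l| ≤ M
    · obtain ⟨l, -, s, h1, h2, h3⟩ := hcase
      left
      rw [h2, sub_self, zero_mul, add_zero, abs_mul] at h3
      have h4 : s.1.1 ≠ s.2.1 := fun h4 => h1 (Prod.ext h4 h2)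
      have h5 : (1 : ℝ) ≤ |(s.1.1 : ℝ) - s.2.1| := by
        have h6 : (1 : ℤ) ≤ |(s.1.1 : ℤ) - s.2.1| := Int.one_le_abs (sub_ne_zero.2 (by exact_mod_cast h4))
        exact_mod_cast h6
      nlinarith [abs_nonneg (v i)]
    · right
      push Not at hcase
      have hch : ∀ l, ∃ s : (ℕ × ℕ) × (ℕ × ℕ), s ∈ F i l ×ˢ F i l ∧
          |v l - ((if l = i then (1 : ℚ) else slope s : ℚ) : ℝ) * v i| ≤ M := by
        intro l
        by_cases hl : l = i
        · obtain ⟨e, he⟩ := hF i l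
          refine ⟨(e, e), mem_product.2 ⟨he, he⟩, ?_⟩
          rw [if_pos hl, hl]
          simpa using hM0
        · obtain ⟨s, h1, h2, h3, h4⟩ := hpair l (Ne.symm hl)
          refine ⟨s, mem_product.2 ⟨h1, h2⟩, ?_⟩
          rw [if_neg hl]
          have h5 : s.1.2 ≠ s.2.2 := fun h5 => absurd h4 (not_le.2 (hcase l (Ne.symm hl) s h3 h5))
          have h6 : (1 : ℝ) ≤ |(s.1.2 : ℝ) - s.2.2| := by
            have h6 : (1 : ℤ) ≤ |(s.1.2 : ℤ) - s.2.2| := Int.one_le_abs (sub_ne_zero.2 (by exact_mod_cast h5))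
            exact_mod_cast h6
          have h7 : ((s.1.2 : ℝ) - s.2.2) ≠ 0 := by
            intro h7; rw [h7, abs_zero] at h6; linarith
          have h8 : v l - ((slope s : ℚ) : ℝ) * v i =
              (((s.1.1 : ℝ) - s.2.1) * v i + ((s.1.2 : ℝ) - s.2.2) * v l) / ((s.1.2 : ℝ) - s.2.2) := by
            unfold slope
            push_cast
            field_simp
            ring
          rw [h8, abs_div]
          calc _ ≤ M / |(s.1.2 : ℝ) - s.2.2| := by gcongr
            _ ≤ M / 1 := by gcongr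
            _ = M := div_one M
      choose σ hσ1 hσ2 using hch
      have hmem : (i, σ) ∈ P := by
        simp only [P, mem_biUnion, mem_univ, true_and, mem_image, Fintype.mem_piFinset]
        exact ⟨i, σ, hσ1, rfl⟩
      have h1 := hκ _ hmem
      have h2 : ∑ l, α l * v l = kap α i σ * v i +
          ∑ l, α l * (v l - ((if l = i then (1 : ℚ) else slope (σ l) : ℚ) : ℝ) * v i) := by
        unfold kap
        rw [sum_mul, ← sum_add_distrib]
        refine sum_congr rfl fun l _ => ?_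
        ring
      have h3 : |∑ l, α l * (v l - ((if l = i then (1 : ℚ) else slope (σ l) : ℚ) : ℝ) * v i)| ≤ A * M := by
        refine (abs_sum_le_sum_abs _ _).trans ?_
        rw [hA, sum_mul]
        refine sum_le_sum fun l _ => ?_
        rw [abs_mul]
        exact mul_le_mul_of_nonneg_left (hσ2 l) (abs_nonneg _)
      have h4 : kap α i σ * v i = ∑ l, α l * v l -
          ∑ l, α l * (v l - ((if l = i then (1 : ℚ) else slope (σ l) : ℚ) : ℝ) * v i) := by
        rw [h2]; ring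
      calc κ * |v i| ≤ |kap α i σ| * |v i| := by gcongr
        _ = |kap α i σ * v i| := (abs_mul _ _).symm
        _ ≤ |∑ l, α l * v l| + |∑ l, α l * (v l - ((if l = i then (1 : ℚ) else slope (σ l) : ℚ) : ℝ) * v i)| := by
          rw [h4]; exact abs_sub _ _
        _ ≤ |∑ l, α l * v l| + A * M := by gcongr
  refine (hi' l0).trans ?_
  have hS0 : 0 ≤ |∑ l, α l * v l| := abs_nonneg _
  have hMle : M ≤ (2 + Real.log N) * (1 + Real.log B + |∑ l, α l * v l|) := by
    rw [hM]; nlinarith [mul_nonneg hLN hLB, mul_nonneg hLN hS0]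
  set Z : ℝ := 1 + Real.log B + |∑ l, α l * v l| with hZ
  have hZ0 : 0 ≤ Z := by positivity
  have hZ1 : |∑ l, α l * v l| ≤ Z := by rw [hZ]; linarith
  rcases hgoal with h | h
  · refine h.trans (hMle.trans ?_)
    have : 0 ≤ (2 + Real.log N) * (A / κ) * Z + 1 / κ * Z := by positivity
    nlinarith
  · have h1 : |v i| ≤ |∑ l, α l * v l| / κ + A / κ * M := by
      rw [mul_comm, ← le_div_iff₀ hκ0] at h
      refine h.trans (le_of_eq ?_)
      field_simp
    refine h1.trans ?_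
    have h2 : |∑ l, α l * v l| / κ ≤ 1 / κ * Z := by
      rw [div_eq_inv_mul, ← one_div]; gcongr
    have h3 : A / κ * M ≤ A / κ * ((2 + Real.log N) * Z) := by gcongr
    have h4 : 0 ≤ (2 + Real.log N) * Z := by positivity
    nlinarith

end Pool.Agent.H539.FH
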